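import Pool.Agent.W2helper83.BT.Defs3

/-!
# Project BT, third part: piece MONO
-/

set_option autoImplicit false

namespace Pool.Agent.W4helper65.BT

open Pool.Agent.W2helper83.BT

theorem finite_roots (K : Type) [Field K] [NumberField K] :
    {ζ : K | ∃ n : ℕ, 0 < n ∧ ζ ^ n = 1}.Finite := by
  refine (NumberField.Embeddings.finite_of_norm_le K ℂ 1).subset ?_
  rintro ζ ⟨n, hn, h⟩
  refine ⟨IsIntegral.of_pow hn (h ▸ isIntegral_one), fun φ => ?_⟩
  have h1 : ‖φ ζ‖ ^ n = 1 := by
    rw [← norm_pow, ← map_pow, h, map_one, norm_one]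
  exact le_of_eq ((pow_eq_one_iff_of_nonneg (norm_nonneg _) hn.ne').1 h1)

theorem iter_ne {K : Type} [Field K] (e : ℤ) {b x : K} (hb : b ≠ 0) (hx : x ≠ 0) (k : ℕ) :
    (fa e b 0)^[k] x ≠ 0 := by
  induction k with
  | zero => exact hx
  | succ k ih =>
    rw [Function.iterate_succ_apply', fa, add_zero]
    exact mul_ne_zero hb (zpow_ne_zero _ ih)

theorem iter_div {K : Type} [Field K] (e : ℤ) {b x y : K} (hb : b ≠ 0)
    (k : ℕ) : (fa e b 0)^[k] x / (fa e b 0)^[k] y = (x / y) ^ (e ^ k) := by
  induction k with
  | zero => simp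
  | succ k ih =>
    rw [Function.iterate_succ_apply', Function.iterate_succ_apply', fa, fa, add_zero, add_zero,
      mul_div_mul_left _ _ hb, ← div_zpow, ih, ← zpow_mul, pow_succ]

theorem iter_add {α : Type} (f : α → α) (x : α) {m n : ℕ} (hmn : m ≤ n)
    (h : f^[m] x = f^[n] x) {M : ℕ} (hM : m ≤ M) (j : ℕ) :
    f^[M + (n - m) * j] x = f^[M] x := by
  have h1 : f^[M + (n - m)] x = f^[M] x := by
    have e1 : M + (n - m) = (M - m) + n := by omega
    have e2 : M = (M - m) + m := by omega
    rw [e1, Function.iterate_add_apply, ← h, ← Function.iterate_add_apply, ← e2]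
  induction j with
  | zero => simp
  | succ j ih =>
    have e3 : M + (n - m) * (j + 1) = (n - m) * j + (M + (n - m)) := by ring
    have e4 : M + (n - m) * j = (n - m) * j + M := by ring
    rw [e3, Function.iterate_add_apply, h1, ← Function.iterate_add_apply, ← e4, ih]

theorem mono : MONO := by
  intro K _ _
  classical
  refine ⟨(finite_roots K).toFinset.card + 1, fun e b T he hb hT => ?_⟩
  have h0 : (T.erase 0).card ≤ (finite_roots K).toFinset.card := by
    rcases (T.erase 0).eq_empty_or_nonempty with h | ⟨y, hy⟩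
    · rw [h, Finset.card_empty]
      exact Nat.zero_le _
    · obtain ⟨hy0, hyT⟩ := Finset.mem_erase.1 hy
      refine Finset.card_le_card_of_injOn (fun x => x / y) ?_ ?_
      · intro x hx
        obtain ⟨hx0, hxT⟩ := Finset.mem_erase.1 hx
        obtain ⟨m, n, hmn, h⟩ := hT x hxT
        obtain ⟨m', n', hmn', h'⟩ := hT y hyT
        have k1 := iter_add (fa e b 0) x hmn.le h (le_max_left m m') (n' - m')
        have k2 := iter_add (fa e b 0) y hmn'.le h' (le_max_right m m') (n - m)
        rw [mul_comm (n' - m')] at k2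
        set M := max m m' with hM
        set N := (n - m) * (n' - m') with hN
        have hN0 : 0 < N := Nat.mul_pos (by omega) (by omega)
        have k3 := iter_div (x := x) (y := y) e hb (M + N)
        rw [k1, k2, iter_div e hb M] at k3
        have hxy : x / y ≠ 0 := div_ne_zero hx0 hy0
        have k4 : (x / y) ^ (e ^ (M + N) - e ^ M) = 1 := by
          rw [zpow_sub₀ hxy, ← k3, div_self (zpow_ne_zero _ hxy)]
        have k5 : e ^ (M + N) - e ^ M ≠ 0 := by
          intro h6
          have h7 : e ^ (M + N) = e ^ M := by linarith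
          have h8 := congrArg Int.natAbs h7
          rw [Int.natAbs_pow, Int.natAbs_pow] at h8
          have := Nat.pow_right_injective he h8
          omega
        rw [Finset.mem_coe, Set.Finite.mem_toFinset]
        refine ⟨(e ^ (M + N) - e ^ M).natAbs, Int.natAbs_pos.2 k5, ?_⟩
        rcases Int.natAbs_eq (e ^ (M + N) - e ^ M) with h9 | h9
        · rw [h9, zpow_natCast] at k4
          exact k4
        · rw [h9, zpow_neg, zpow_natCast, inv_eq_one] at k4
          exact k4
      · intro x _ x' _ hxx
        exact (div_left_inj' hy0).1 hxx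
  have h1 : T.card ≤ (T.erase 0).card + 1 := by
    have := Finset.pred_card_le_card_erase (s := T) (a := 0)
    omega
  omega

end Pool.Agent.W4helper65.BT
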